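import Pool.Agent.Helper23_Refl.StmtB

/-!
# Rounding for the far end of an edge
-/

namespace Pool.Agent.Refl.H66

open Pool.Agent.Refl

lemma SSr : ((SS : ℕ) : ℝ) = 1000000 := by norm_num [SS]

lemma SSpos : 0 < SS := by norm_num [SS]

/-- natural division bounded below -/
lemma lt_div_add_one (a b : ℕ) (hb : 0 < b) : a < b * (a / b + 1) := by
  have h1 := Nat.div_add_mod a b
  have h2 := Nat.mod_lt a hb
  nlinarith

lemma real_div_le (a b : ℕ) (hb : 0 < b) : (a : ℝ) / b ≤ ((a / b + 1 : ℕ) : ℝ) := by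
  have hb' : (0 : ℝ) < b := by exact_mod_cast hb
  rw [div_le_iff₀ hb']
  have h := (lt_div_add_one a b hb).le
  have h' : (a : ℝ) ≤ (b : ℝ) * ((a / b + 1 : ℕ) : ℝ) := by exact_mod_cast h
  linarith

lemma div_le_real (a b : ℕ) : ((a / b : ℕ) : ℝ) ≤ (a : ℝ) / b := Nat.cast_div_le

lemma mulU_ge {x y : ℝ} {a b : ℕ} (hx : 0 ≤ x) (hxa : x ≤ (a : ℝ) / SS) (hyb : y ≤ (b : ℝ) / SS) :
    x * y ≤ (mulU a b : ℝ) / SS := by
  have h0 : (0 : ℝ) < SS := by exact_mod_cast SSpos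
  have h1 : x * y ≤ (a : ℝ) / SS * ((b : ℝ) / SS) := by
    have hb : (0 : ℝ) ≤ (b : ℝ) / SS := by positivity
    calc x * y ≤ x * ((b : ℝ) / SS) := mul_le_mul_of_nonneg_left hyb hx
      _ ≤ (a : ℝ) / SS * ((b : ℝ) / SS) := mul_le_mul_of_nonneg_right hxa hb
  have h2 := real_div_le (a * b) SS SSpos
  have h3 : (a : ℝ) / SS * ((b : ℝ) / SS) = ((a * b : ℕ) : ℝ) / SS / SS := by
    push_cast; field_simp
  rw [h3] at h1
  refine h1.trans ?_
  unfold mulU
  exact div_le_div_of_nonneg_right h2 h0.le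

lemma divU_ge {x y : ℝ} {a b : ℕ} (_hx : 0 ≤ x) (hxa : x ≤ (a : ℝ) / SS) (hb : 0 < b)
    (hyb : (b : ℝ) / SS ≤ y) : x / y ≤ (divU a b : ℝ) / SS := by
  have h0 : (0 : ℝ) < SS := by exact_mod_cast SSpos
  have hb' : (0 : ℝ) < b := by exact_mod_cast hb
  have hbS : (0 : ℝ) < (b : ℝ) / SS := by positivity
  have h1 : x / y ≤ ((a : ℝ) / SS) / ((b : ℝ) / SS) :=
    div_le_div₀ (by positivity) hxa hbS hyb
  have h2 := real_div_le (a * SS) b hb
  have h3 : ((a : ℝ) / SS) / ((b : ℝ) / SS) = ((a * SS : ℕ) : ℝ) / b / SS := by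
    push_cast; field_simp
  rw [h3] at h1
  refine h1.trans ?_
  unfold divU
  exact div_le_div_of_nonneg_right h2 h0.le

lemma sqU_ge {x : ℝ} {a : ℕ} (hxa : x ≤ (a : ℝ) / SS) : Real.sqrt x ≤ (sqU a : ℝ) / SS := by
  have h0 : (0 : ℝ) < SS := by exact_mod_cast SSpos
  rw [Real.sqrt_le_left (by positivity)]
  refine hxa.trans ?_
  rw [div_pow, div_le_div_iff₀ h0 (by positivity)]
  have h := Nat.lt_succ_sqrt (a * SS)
  have h' : a * SS ≤ (Nat.sqrt (a * SS) + 1) * (Nat.sqrt (a * SS) + 1) := h.le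
  have h2 : ((a : ℝ) * SS) ≤ (sqU a : ℝ) * (sqU a : ℝ) := by
    unfold sqU
    exact_mod_cast h'
  nlinarith [mul_le_mul_of_nonneg_right h2 h0.le]

lemma gN_nonneg (N : ℕ) : 0 ≤ gN N := by unfold gN; positivity

lemma gN_sq (N : ℕ) : gN N ^ 2 = (N : ℝ) / 4 := by
  unfold gN
  rw [div_pow, Real.sq_sqrt (by positivity)]
  norm_num

lemma gL_le (N : ℕ) : (gL N : ℝ) / SS ≤ gN N := by
  have h0 : (0 : ℝ) < SS := by exact_mod_cast SSpos
  rw [div_le_iff₀ h0]
  unfold gL gN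
  have h1 := Nat.sqrt_le (N * SS * SS)
  have h2 : (Nat.sqrt (N * SS * SS) : ℝ) ≤ Real.sqrt N * SS := by
    rw [← Real.sqrt_sq h0.le, ← Real.sqrt_mul (by positivity)]
    apply Real.le_sqrt_of_sq_le
    have : ((Nat.sqrt (N * SS * SS) * Nat.sqrt (N * SS * SS) : ℕ) : ℝ) ≤ ((N * SS * SS : ℕ) : ℝ) := by
      exact_mod_cast h1
    push_cast at this
    rw [sq, sq, ← mul_assoc]
    exact this
  have h3 := div_le_real (Nat.sqrt (N * SS * SS)) 2
  push_cast at h3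
  linarith

lemma le_gU (N : ℕ) : gN N ≤ (gU N : ℝ) / SS := by
  have h0 : (0 : ℝ) < SS := by exact_mod_cast SSpos
  rw [le_div_iff₀ h0]
  unfold gU gN
  have h1 := (Nat.lt_succ_sqrt (N * SS * SS)).le
  have h2 : Real.sqrt N * SS ≤ (Nat.sqrt (N * SS * SS) : ℝ) + 1 := by
    rw [← Real.sqrt_sq h0.le, ← Real.sqrt_mul (by positivity)]
    rw [Real.sqrt_le_left (by positivity)]
    have : ((N * SS * SS : ℕ) : ℝ) ≤
        (((Nat.sqrt (N * SS * SS)).succ * (Nat.sqrt (N * SS * SS)).succ : ℕ) : ℝ) := by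
      exact_mod_cast h1
    push_cast at this
    rw [sq, sq, ← mul_assoc]
    exact this
  have h3 := lt_div_add_one (Nat.sqrt (N * SS * SS)) 2 (by norm_num)
  have h4 : (Nat.sqrt (N * SS * SS) : ℝ) + 1 ≤ 2 * ((Nat.sqrt (N * SS * SS) / 2 + 1 : ℕ) : ℝ) := by
    exact_mod_cast h3
  linarith

lemma c4_eq {N : ℕ} (h : N < 4) : (c4 N : ℝ) / SS = 1 - gN N ^ 2 := by
  rw [gN_sq]
  unfold c4 SS
  interval_cases N <;> norm_num

lemma subcast {l : ℕ} (h : l ≤ SS) : ((SS - l : ℕ) : ℝ) / SS = 1 - (l : ℝ) / SS := by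
  have h0 : (0 : ℝ) < SS := by exact_mod_cast SSpos
  rw [Nat.cast_sub h]
  field_simp

lemma addcast (l m : ℕ) : ((l + m : ℕ) : ℝ) / SS = (l : ℝ) / SS + (m : ℝ) / SS := by
  push_cast
  ring

/-- rounding of `ysup` -/
lemma ysupU_ge {c h2 l m : ℕ} {H : ℝ} (hH : 0 ≤ H) (hHh : H ≤ (h2 : ℝ) / SS) (hl : l ≤ SS)
    (hlm : 0 < l + m) :
    ysup ((c : ℝ) / SS) H ((l : ℝ) / SS) ((m : ℝ) / SS) ≤ (ysupU c h2 l m : ℝ) / SS := by
  have h0 : (0 : ℝ) < SS := by exact_mod_cast SSpos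
  have hl' : (l : ℝ) ≤ SS := by exact_mod_cast hl
  set C : ℝ := (c : ℝ) / SS with hC
  set L : ℝ := (l : ℝ) / SS with hL
  set M : ℝ := (m : ℝ) / SS with hM
  have C0 : 0 ≤ C := by positivity
  have L0 : 0 ≤ L := by positivity
  have M0 : 0 ≤ M := by positivity
  have L1 : 0 ≤ 1 - L := by
    have : L ≤ 1 := by rw [hL, div_le_one h0]; exact hl'
    linarith
  have hC1 : C * (1 - L) ≤ (mulU c (SS - l) : ℝ) / SS :=
    mulU_ge C0 le_rfl (subcast hl).symm.le
  have hLM : ((l + m : ℕ) : ℝ) / SS = L + M := addcast l m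
  have hLMpos : 0 < L + M := by
    rw [← hLM]
    have : (0 : ℝ) < ((l + m : ℕ) : ℝ) := by exact_mod_cast hlm
    positivity
  -- the second value bounds the first
  have V12 : 0 < L → (Real.sqrt (C * (1 - L)) + Real.sqrt (H * M)) ^ 2 / (L + M) ≤
      C * (1 - L) / L + H := by
    intro hLp
    rw [div_le_iff₀ hLMpos]
    set A := Real.sqrt (C * (1 - L)) with hA
    have hA2 : A ^ 2 = C * (1 - L) := Real.sq_sqrt (mul_nonneg C0 L1)
    set v := Real.sqrt M with hv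
    have hv2 : v ^ 2 = M := Real.sq_sqrt M0
    set k := Real.sqrt H with hk
    have hk2 : k ^ 2 = H := Real.sq_sqrt hH
    rw [Real.sqrt_mul hH, ← hk, ← hv, ← hA2, ← hk2, ← hv2]
    have e : (A ^ 2 / L + k ^ 2) * (L + v ^ 2) - (A + k * v) ^ 2 = (A * v - k * L) ^ 2 / L := by
      field_simp
      ring
    have : 0 ≤ (A * v - k * L) ^ 2 / L := by positivity
    linarith
  have V2 : 0 < L → C * (1 - L) / L + H ≤ ((divU (mulU c (SS - l)) l + h2 : ℕ) : ℝ) / SS := by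
    intro hLp
    have hl0 : 0 < l := by
      rcases Nat.eq_zero_or_pos l with h | h
      · rw [hL, h] at hLp; simp at hLp
      · exact h
    have h1 : C * (1 - L) / L ≤ (divU (mulU c (SS - l)) l : ℝ) / SS :=
      divU_ge (mul_nonneg C0 L1) hC1 hl0 le_rfl
    rw [addcast]
    linarith
  -- the comparison of the conditions
  have hcmp : ∀ h : h2 * l * l ≤ c * (SS - l) * m, (h2 : ℝ) / SS * L ^ 2 ≤ C * (1 - L) * M := by
    intro h
    have h' : ((h2 * l * l : ℕ) : ℝ) ≤ ((c * (SS - l) * m : ℕ) : ℝ) := by exact_mod_cast h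
    rw [← subcast hl, hC, hL, hM]
    push_cast at h'
    have e1 : (h2 : ℝ) / SS * ((l : ℝ) / SS) ^ 2 = (h2 * l * l) / (SS * SS * SS) := by
      field_simp
    have e2 : (c : ℝ) / SS * (((SS - l : ℕ) : ℝ) / SS) * ((m : ℝ) / SS) =
        (c * ((SS - l : ℕ) : ℝ) * m) / (SS * SS * SS) := by
      field_simp
    rw [e1, e2]
    exact div_le_div_of_nonneg_right h' (by positivity)
  have hcmp' : ¬ h2 * l * l ≤ c * (SS - l) * m → 0 < L := by
    intro h
    rcases Nat.eq_zero_or_pos l with h3 | h3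
    · exfalso
      apply h
      rw [h3]
      simp
    · have : (0 : ℝ) < l := by exact_mod_cast h3
      positivity
  unfold ysupU ysup
  by_cases hn : h2 * l * l ≤ c * (SS - l) * m
  · have hreal : H * L ^ 2 ≤ C * (1 - L) * M :=
      (mul_le_mul_of_nonneg_right hHh (by positivity)).trans (hcmp hn)
    rw [if_pos hreal, if_pos hn]
    have hHM : H * M ≤ (mulU h2 m : ℝ) / SS := mulU_ge hH hHh le_rfl
    have hs1 := sqU_ge hC1
    have hs2 := sqU_ge hHM
    have hs : Real.sqrt (C * (1 - L)) + Real.sqrt (H * M) ≤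
        ((sqU (mulU c (SS - l)) + sqU (mulU h2 m) : ℕ) : ℝ) / SS := by
      rw [addcast]; linarith
    apply divU_ge (by positivity) _ hlm hLM.le
    rw [sq]
    exact mulU_ge (by positivity) hs hs
  · rw [if_neg hn]
    have hLp := hcmp' hn
    split_ifs
    · exact (V12 hLp).trans (V2 hLp)
    · exact V2 hLp

theorem farNat : FarNatStmt := by
  intro Nij Nik Nir Njr lN mN n t Yk Yr hij hik hir hjr hzero ht hsum hlm hl hm hYk0 hYr0
    hYk hYr hYr2 hn
  have h0 : (0 : ℝ) < SS := by exact_mod_cast SSpos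
  have htq : Nat.sqrt (Nij * Nir * Njr) = t := by rw [← ht, Nat.sqrt_eq]
  have htr : (t : ℝ) = Real.sqrt Nij * Real.sqrt Nir * Real.sqrt Njr := by
    rw [← Real.sqrt_mul (by positivity), ← Real.sqrt_mul (by positivity)]
    symm
    rw [Real.sqrt_eq_iff_mul_self_eq (by positivity) (by positivity)]
    have : ((t * t : ℕ) : ℝ) = ((Nij * Nir * Njr : ℕ) : ℝ) := by rw [ht]
    push_cast at this
    exact this.symm
  have hgt : gN Nij * gN Nir * gN Njr = (t : ℝ) / 8 := by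
    rw [htr]; unfold gN; ring
  have hij' : (Nij : ℝ) < 4 := by exact_mod_cast hij
  have hp : (0 : ℝ) < 4 - Nij := by linarith
  have cij : ((4 - Nij : ℕ) : ℝ) = 4 - Nij := by
    rw [Nat.cast_sub hij.le]; norm_num
  have hwf : wf (gN Nij) (gN Nir) (gN Njr) = (4 - Nij - Nir - Njr - t) / (4 - Nij) := by
    unfold wf
    have e : gN Nir ^ 2 + gN Njr ^ 2 + 2 * gN Nij * gN Nir * gN Njr =
        gN Nir ^ 2 + gN Njr ^ 2 + 2 * (gN Nij * gN Nir * gN Njr) := by ring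
    rw [e, hgt, gN_sq, gN_sq, gN_sq]
    field_simp
    ring
  have hh2 : (gN Njr + gN Nij * gN Nir) ^ 2 / (1 - gN Nij ^ 2) =
      (4 * Njr + Nij * Nir + 4 * t) / (4 * (4 - Nij)) := by
    have e : (gN Njr + gN Nij * gN Nir) ^ 2 =
        gN Njr ^ 2 + gN Nij ^ 2 * gN Nir ^ 2 + 2 * (gN Nij * gN Nir * gN Njr) := by ring
    rw [e, hgt, gN_sq, gN_sq, gN_sq]
    field_simp
    ring
  -- the natural quantities
  set h2 := (4 * Njr + Nij * Nir + 4 * t) * SS / (4 * (4 - Nij)) + 1 with hh2d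
  set Yk2 := divU (mulU (c4 Nik) (SS - lN)) (lN + mN) with hYk2d
  set Ya := ysupU (c4 Nir) h2 lN mN with hYad
  set Yr2 := if Nij = 0 then min Ya (ysupU (c4 Njr) (Nir * SS / 4 + 1) mN lN) else Ya with hYr2d
  set wr := (4 - Nij - Nir - Njr - t) * SS / (4 - Nij) + 1 with hwrd
  have hfar : farBN Nij Nik Nir Njr lN mN =
      4 * (mulU (sqU (c4 Nik + Yk2)) (sqU (wr + Yr2)) + sqU (mulU Yk2 Yr2) -
        gL Nik * gL Nir / SS) * (mulU (sqU (c4 Nik + Yk2)) (sqU (wr + Yr2)) +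
        sqU (mulU Yk2 Yr2) - gL Nik * gL Nir / SS) / (SS * SS) := by
    unfold farBN
    simp only [htq]
    rfl
  have hh2r : (gN Njr + gN Nij * gN Nir) ^ 2 / (1 - gN Nij ^ 2) ≤ (h2 : ℝ) / SS := by
    rw [hh2, le_div_iff₀ h0]
    have h := real_div_le ((4 * Njr + Nij * Nir + 4 * t) * SS) (4 * (4 - Nij)) (by omega)
    rw [hh2d]
    refine le_trans (le_of_eq ?_) h
    push_cast
    rw [cij]
    ring
  have hh2r0 : 0 ≤ (gN Njr + gN Nij * gN Nir) ^ 2 / (1 - gN Nij ^ 2) := by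
    rw [hh2]
    positivity
  have hYk' : Yk ^ 2 ≤ (Yk2 : ℝ) / SS := by
    refine hYk.trans ?_
    rw [← c4_eq hik]
    have hl1 : (0 : ℝ) ≤ 1 - (lN : ℝ) / SS := by
      rw [← subcast hl.le]; positivity
    apply divU_ge _ _ hlm (addcast lN mN).le
    · positivity
    · exact mulU_ge (by positivity) le_rfl (subcast hl.le).symm.le
  have hYa' : Yr ^ 2 ≤ (Ya : ℝ) / SS := by
    refine hYr.trans ?_
    rw [← c4_eq hir]
    exact ysupU_ge hh2r0 hh2r hl.le hlm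
  have hYr' : Yr ^ 2 ≤ (Yr2 : ℝ) / SS := by
    rw [hYr2d]
    split_ifs with hz
    · rcases min_choice Ya (ysupU (c4 Njr) (Nir * SS / 4 + 1) mN lN) with h | h
      · rw [h]; exact hYa'
      · rw [h]
        refine (hYr2 hz).trans ?_
        rw [← c4_eq hjr]
        apply ysupU_ge (by positivity) _ hm (by omega)
        rw [gN_sq, le_div_iff₀ h0]
        have h := real_div_le (Nir * SS) 4 (by norm_num)
        refine le_trans (le_of_eq ?_) h
        push_cast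
        ring
    · exact hYa'
  have hwr : wf (gN Nij) (gN Nir) (gN Njr) ≤ (wr : ℝ) / SS := by
    rw [hwf, le_div_iff₀ h0]
    have h := real_div_le ((4 - Nij - Nir - Njr - t) * SS) (4 - Nij) (by omega)
    rw [hwrd]
    refine le_trans (le_of_eq ?_) h
    have e : ((4 - Nij - Nir - Njr - t : ℕ) : ℝ) = 4 - Nij - Nir - Njr - t := by
      rw [Nat.cast_sub (by omega), Nat.cast_sub (by omega), Nat.cast_sub (by omega),
        Nat.cast_sub (by omega)]
      norm_num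
    rw [Nat.cast_mul, e, cij]
    ring
  -- assemble
  set X := mulU (sqU (c4 Nik + Yk2)) (sqU (wr + Yr2)) + sqU (mulU Yk2 Yr2) with hX
  set x := X - gL Nik * gL Nir / SS with hx
  have b1 : Yk * Yr ≤ (sqU (mulU Yk2 Yr2) : ℝ) / SS := by
    have e : Yk * Yr = Real.sqrt (Yk ^ 2 * Yr ^ 2) := by
      rw [← mul_pow, Real.sqrt_sq (by positivity)]
    rw [e]
    exact sqU_ge (mulU_ge (by positivity) hYk' hYr')
  have b2 : Real.sqrt (1 - gN Nik ^ 2 + Yk ^ 2) ≤ (sqU (c4 Nik + Yk2) : ℝ) / SS := by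
    apply sqU_ge
    rw [addcast, c4_eq hik]
    linarith
  have b3 : Real.sqrt (wf (gN Nij) (gN Nir) (gN Njr) + Yr ^ 2) ≤ (sqU (wr + Yr2) : ℝ) / SS := by
    apply sqU_ge
    rw [addcast]
    linarith
  have b4 := mulU_ge (Real.sqrt_nonneg (1 - gN Nik ^ 2 + Yk ^ 2)) b2 b3
  have b5 : ((gL Nik * gL Nir / SS : ℕ) : ℝ) / SS ≤ gN Nik * gN Nir := by
    have h1 := div_le_real (gL Nik * gL Nir) SS
    have h2 := mul_le_mul (gL_le Nik) (gL_le Nir) (by positivity) (gN_nonneg Nik)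
    rw [div_le_iff₀ h0]
    refine h1.trans ?_
    rw [div_le_iff₀ h0]
    push_cast
    have e : (gL Nik : ℝ) * gL Nir = (gL Nik : ℝ) / SS * ((gL Nir : ℝ) / SS) * (SS * SS) := by
      field_simp
    rw [e]
    have := mul_le_mul_of_nonneg_right h2 (by positivity : (0 : ℝ) ≤ SS * SS)
    linarith
  have b6 : gN n ≤ (x : ℝ) / SS := by
    have hX' : ((X : ℕ) : ℝ) / SS = (mulU (sqU (c4 Nik + Yk2)) (sqU (wr + Yr2)) : ℝ) / SS +
        (sqU (mulU Yk2 Yr2) : ℝ) / SS := by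
      rw [hX, addcast]
    have hsub : (X : ℝ) - ((gL Nik * gL Nir / SS : ℕ) : ℝ) ≤ (x : ℝ) := by
      rw [hx]
      have : X ≤ (X - gL Nik * gL Nir / SS) + gL Nik * gL Nir / SS := by omega
      have h' : (X : ℝ) ≤ ((X - gL Nik * gL Nir / SS : ℕ) : ℝ) + ((gL Nik * gL Nir / SS : ℕ) : ℝ) := by
        exact_mod_cast this
      linarith
    have hsub' := div_le_div_of_nonneg_right hsub h0.le
    rw [sub_div] at hsub'
    linarith
  rw [hfar]
  rw [Nat.le_div_iff_mul_le (by norm_num [SS])]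
  have b7 : gN n * SS ≤ x := by rwa [le_div_iff₀ h0] at b6
  have b8 : (gN n * SS) ^ 2 ≤ (x : ℝ) ^ 2 := by
    apply pow_le_pow_left₀ _ b7
    have := gN_nonneg n
    positivity
  rw [mul_pow, gN_sq] at b8
  have b9 : (n : ℝ) * ((SS : ℝ) * SS) ≤ 4 * x * x := by nlinarith
  exact_mod_cast b9

end Pool.Agent.Refl.H66
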