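import Pool.Agent.Helper23_Refl.StmtB

/-!
# The real inequality for the far end of an edge
-/

namespace Pool.Agent.Refl.H66

open Pool.Agent.Refl

lemma le_of_sq_le_sq_nn {a b : ℝ} (_ : 0 ≤ a) (hb : 0 ≤ b) (h : a ^ 2 ≤ b ^ 2) : a ≤ b := by
  by_contra hc
  push Not at hc
  nlinarith

lemma oneSub_pos {g : ℝ} (h0 : 0 ≤ g) (h1 : g < 1) : 0 < 1 - g ^ 2 := by nlinarith

lemma Qf_eq {g si sj : ℝ} (h0 : 0 ≤ g) (h1 : g < 1) :
    Qf g si sj = si ^ 2 + (sj + g * si) ^ 2 / (1 - g ^ 2) := by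
  have hp := oneSub_pos h0 h1
  unfold Qf
  field_simp
  ring

lemma sq_le_of_Qf {g si sj q : ℝ} (h0 : 0 ≤ g) (h1 : g < 1) (h : Qf g si sj ≤ q) :
    (sj + g * si) ^ 2 ≤ (1 - g ^ 2) * (q - si ^ 2) := by
  have hp := oneSub_pos h0 h1
  rw [Qf_eq h0 h1] at h
  have h2 : (sj + g * si) ^ 2 / (1 - g ^ 2) ≤ q - si ^ 2 := by linarith
  rw [div_le_iff₀ hp] at h2
  linarith

lemma l_lt_one {g si sj q l : ℝ} (h0 : 0 ≤ g) (h1 : g < 1) (h : Qf g si sj ≤ q) (hi : 0 < si)
    (hj : 0 < sj) (hq : 0 < q) (hl : l * q ≤ si ^ 2) : l < 1 := by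
  have hp := oneSub_pos h0 h1
  have h2 := sq_le_of_Qf h0 h1 h
  have h3 : 0 < (sj + g * si) ^ 2 := by positivity
  have h4 : 0 < q - si ^ 2 := by
    by_contra hc
    push Not at hc
    nlinarith [mul_nonneg hp.le (sub_nonneg.2 (sub_nonpos.1 hc))]
  have h5 : l * q < 1 * q := by linarith
  exact lt_of_mul_lt_mul_right h5 hq.le

/-- the real inequality in normalized variables -/
lemma ysup_core {c h l m a u lam : ℝ} (hc : 0 < c) (hh : 0 ≤ h) (hl : 0 ≤ l) (hm : 0 ≤ m)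
    (hlm : 0 < l + m) (hl1 : l < 1) (ha : 0 ≤ a) (hu : 0 ≤ u) (hlam : l ≤ lam)
    (hal : a ^ 2 ≤ c * (1 - lam)) (hum : m ≤ u ^ 2) :
    (a + h * u) ^ 2 ≤ ysup c (h ^ 2) l m * (lam + u ^ 2) := by
  set A := Real.sqrt (c * (1 - l)) with hA
  have hA0 : 0 ≤ A := Real.sqrt_nonneg _
  have hA2 : A ^ 2 = c * (1 - l) := Real.sq_sqrt (mul_nonneg hc.le (by linarith))
  have haA : a ≤ A := by
    apply Real.le_sqrt_of_sq_le
    nlinarith
  have h1 : (a + h * u) ^ 2 ≤ (A + h * u) ^ 2 := by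
    apply pow_le_pow_left₀ (by positivity)
    linarith
  have hlu : l + u ^ 2 ≤ lam + u ^ 2 := by linarith
  have hy : 0 ≤ ysup c (h ^ 2) l m := by
    unfold ysup
    split_ifs
    · positivity
    · have : 0 ≤ c * (1 - l) := mul_nonneg hc.le (by linarith)
      positivity
  refine h1.trans (le_trans ?_ (mul_le_mul_of_nonneg_left hlu hy))
  unfold ysup
  set v := Real.sqrt m with hv
  have hv0 : 0 ≤ v := Real.sqrt_nonneg _
  have hv2 : v ^ 2 = m := Real.sq_sqrt hm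
  have hhm : Real.sqrt (h ^ 2 * m) = h * v := by
    rw [Real.sqrt_mul (by positivity), Real.sqrt_sq hh]
  split_ifs with hcond
  · rw [hhm, div_mul_eq_mul_div, le_div_iff₀ hlm]
    have hlv : h * l ≤ A * v := by
      apply le_of_sq_le_sq_nn (by positivity) (by positivity)
      rw [mul_pow, mul_pow, hA2, hv2]
      exact hcond
    have huv : v ≤ u := by
      apply le_of_sq_le_sq_nn hv0 hu
      rw [hv2]; exact hum
    rw [← hv2]
    have key : (A + h * v) ^ 2 * (l + u ^ 2) - (A + h * u) ^ 2 * (l + v ^ 2) =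
        (u - v) * (A ^ 2 * (u + v) + 2 * A * h * (u * v - l) - h ^ 2 * l * (u + v)) := by ring
    have h2 : 0 ≤ A ^ 2 * (u + v) + 2 * A * h * (u * v - l) - h ^ 2 * l * (u + v) := by
      have e1 : 0 ≤ (A * v - h * l) := by linarith
      have e2 : 0 ≤ A * (u - v) := mul_nonneg hA0 (by linarith)
      have e3 : A ^ 2 * (u + v) + 2 * A * h * (u * v - l) - h ^ 2 * l * (u + v) =
          A ^ 2 * (u - v) + A * h * v * (u - v) + 2 * A * (A * v - h * l)
            + h * (u + v) * (A * v - h * l) := by ring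
      rw [e3]
      have e4 : 0 ≤ A ^ 2 * (u - v) := mul_nonneg (by positivity) (by linarith)
      have e5 : 0 ≤ A * h * v * (u - v) := mul_nonneg (by positivity) (by linarith)
      have e6 : 0 ≤ 2 * A * (A * v - h * l) := mul_nonneg (by positivity) e1
      have e7 : 0 ≤ h * (u + v) * (A * v - h * l) := mul_nonneg (by positivity) e1
      linarith
    have h3 := mul_nonneg (sub_nonneg.2 huv) h2
    linarith
  · push Not at hcond
    have hl0 : 0 < l := by
      rcases hl.eq_or_lt with h0 | h0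
      · exfalso
        rw [← h0] at hcond
        have : 0 ≤ c * (1 - 0) * m := by positivity
        nlinarith
      · exact h0
    rw [← hA2]
    have e : (A ^ 2 / l + h ^ 2) * (l + u ^ 2) - (A + h * u) ^ 2 =
        (A * u - h * l) ^ 2 / l := by
      field_simp
      ring
    have : 0 ≤ (A * u - h * l) ^ 2 / l := by positivity
    linarith

lemma Yf_le {g gir gjr si sj sr q l m : ℝ} (g0 : 0 ≤ g) (g1 : g < 1) (r0 : 0 ≤ gir)
    (r1 : gir < 1) (j0 : 0 ≤ gjr) (hi : 0 < si) (hj : 0 < sj) (hr : 0 < sr) (hq : 0 < q)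
    (hQ : Qf gir si sr ≤ q) (hl : 0 ≤ l) (hm : 0 ≤ m) (hlm : 0 < l + m)
    (hli : l * q ≤ si ^ 2) (hmj : m * q ≤ (sj + g * si) ^ 2 / (1 - g ^ 2)) :
    Yf g gir gjr si sj sr ^ 2 ≤ ysup (1 - gir ^ 2) ((gjr + g * gir) ^ 2 / (1 - g ^ 2)) l m := by
  have hp := oneSub_pos g0 g1
  have hp' := oneSub_pos r0 r1
  set d := Real.sqrt (1 - g ^ 2) with hd
  have hd0 : 0 < d := Real.sqrt_pos.2 hp
  have hd2 : d ^ 2 = 1 - g ^ 2 := Real.sq_sqrt hp.le
  set h := (gjr + g * gir) / d with hh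
  have hh0 : 0 ≤ h := by positivity
  have hh2 : (gjr + g * gir) ^ 2 / (1 - g ^ 2) = h ^ 2 := by
    rw [hh, div_pow, hd2]
  set mj := (sj + g * si) / d with hmjd
  have hmj0 : 0 < mj := by positivity
  have hmj2 : (sj + g * si) ^ 2 / (1 - g ^ 2) = mj ^ 2 := by
    rw [hmjd, div_pow, hd2]
  rw [hh2]
  rw [hmj2] at hmj
  set s := Real.sqrt q with hs
  have hs0 : 0 < s := Real.sqrt_pos.2 hq
  have hs2 : s ^ 2 = q := Real.sq_sqrt hq.le
  have hAA := sq_le_of_Qf r0 r1 hQ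
  have hl1 := l_lt_one r0 r1 hQ hi hr hq hli
  -- the normalized inequality
  have core := ysup_core (c := 1 - gir ^ 2) (h := h) (l := l) (m := m) (a := (sr + gir * si) / s)
    (u := mj / s) (lam := si ^ 2 / q) hp' hh0 hl hm hlm hl1 (by positivity) (by positivity)
    (by rw [le_div_iff₀ hq]; exact hli)
    (by
      rw [div_pow, hs2, div_le_iff₀ hq]
      calc (sr + gir * si) ^ 2 ≤ (1 - gir ^ 2) * (q - si ^ 2) := hAA
        _ = (1 - gir ^ 2) * (1 - si ^ 2 / q) * q := by field_simp)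
    (by rw [div_pow, hs2, le_div_iff₀ hq]; exact hmj)
  have hY : Yf g gir gjr si sj sr = ((sr + gir * si) + h * mj) / Real.sqrt (1 + si ^ 2 + mj ^ 2) := by
    unfold Yf
    rw [Qf_eq g0 g1, hmj2, ← add_assoc]
    congr 1
    have : h * mj = (gjr + g * gir) * (sj + g * si) / (1 - g ^ 2) := by
      rw [hh, hmjd, div_mul_div_comm, ← sq, hd2]
    rw [this]
    field_simp
    ring
  rw [hY, div_pow, Real.sq_sqrt (by positivity), div_le_iff₀ (by positivity)]
  have hy : 0 ≤ ysup (1 - gir ^ 2) (h ^ 2) l m := by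
    unfold ysup
    split_ifs
    · positivity
    · have : 0 ≤ (1 - gir ^ 2) * (1 - l) := mul_nonneg hp'.le (by linarith)
      positivity
  have e1 : ((sr + gir * si) / s + h * (mj / s)) ^ 2 * q = ((sr + gir * si) + h * mj) ^ 2 := by
    rw [← hs2]
    field_simp
  have e2 : (si ^ 2 / q + (mj / s) ^ 2) * q = si ^ 2 + mj ^ 2 := by
    rw [← hs2]
    field_simp
  calc ((sr + gir * si) + h * mj) ^ 2 = ((sr + gir * si) / s + h * (mj / s)) ^ 2 * q := e1.symm
    _ ≤ ysup (1 - gir ^ 2) (h ^ 2) l m * (si ^ 2 / q + (mj / s) ^ 2) * q :=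
        mul_le_mul_of_nonneg_right core hq.le
    _ = ysup (1 - gir ^ 2) (h ^ 2) l m * (si ^ 2 + mj ^ 2) := by rw [mul_assoc, e2]
    _ ≤ ysup (1 - gir ^ 2) (h ^ 2) l m * (1 + si ^ 2 + mj ^ 2) :=
        mul_le_mul_of_nonneg_left (by linarith) hy

theorem farReal : FarRealStmt := by
  intro g gik gir gjr si sj sk sr q l m g0 g1 k0 k1 r0 r1 j0 j1 hgk hi hj hk hr hq hQk hQr hQj
    hl hm hlm hli hmj
  have hp := oneSub_pos g0 g1
  have hpk := oneSub_pos k0 k1
  have hl1 := l_lt_one k0 k1 hQk hi hk hq hli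
  refine ⟨hl1, ?_, Yf_le g0 g1 r0 r1 j0 hi hj hr hq hQr hl hm hlm hli hmj, ?_⟩
  · have hY : Yf g gik 0 si sj sk = (sk + gik * si) /
        Real.sqrt (1 + si ^ 2 + (sj + g * si) ^ 2 / (1 - g ^ 2)) := by
      unfold Yf
      rw [Qf_eq g0 g1, ← add_assoc]
      congr 1
      rcases mul_eq_zero.1 hgk with h0 | h0
      · rw [h0]; ring
      · rw [h0]; ring
    have hAA := sq_le_of_Qf k0 k1 hQk
    have hm0 : 0 ≤ (sj + g * si) ^ 2 / (1 - g ^ 2) := by positivity
    rw [hY, div_pow, Real.sq_sqrt (by positivity), div_le_iff₀ (by positivity)]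
    calc (sk + gik * si) ^ 2 ≤ (1 - gik ^ 2) * (q - si ^ 2) := hAA
      _ ≤ (1 - gik ^ 2) * ((1 - l) * q) := by
          apply mul_le_mul_of_nonneg_left _ hpk.le
          linarith
      _ = (1 - gik ^ 2) * (1 - l) / (l + m) * ((l + m) * q) := by field_simp
      _ ≤ (1 - gik ^ 2) * (1 - l) / (l + m) *
          (1 + si ^ 2 + (sj + g * si) ^ 2 / (1 - g ^ 2)) := by
          apply mul_le_mul_of_nonneg_left
          · linarith
          · apply div_nonneg (mul_nonneg hpk.le (by linarith)) hlm.le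
  · intro h0
    subst h0
    have hmj' : m * q ≤ sj ^ 2 := by
      have e : (sj + 0 * si) ^ 2 / (1 - 0 ^ 2) = sj ^ 2 := by norm_num
      rw [e] at hmj
      exact hmj
    have h := Yf_le (g := 0) (gir := gjr) (gjr := gir) (si := sj) (sj := si) (sr := sr) (q := q)
      (l := m) (m := l) le_rfl one_pos j0 j1 r0 hj hi hr hq hQj hm hl (by linarith) hmj'
      (by
        have e : (si + 0 * sj) ^ 2 / (1 - 0 ^ 2) = si ^ 2 := by norm_num
        rw [e]
        exact hli)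
    have e1 : Yf 0 gir gjr si sj sr = Yf 0 gjr gir sj si sr := by
      unfold Yf Qf
      congr 1
      · ring
      · congr 1; ring
    have e2 : (gir + 0 * gjr) ^ 2 / (1 - 0 ^ 2) = gir ^ 2 := by norm_num
    rw [e1]
    rw [e2] at h
    exact h

end Pool.Agent.Refl.H66
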